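import Pool.Agent.Helper87.TC.Lib

/-!
The members of the family through a general point are nonsingular there (module SM2 of
`MP_39dd1a_ag.TwoComponents`).
-/

set_option autoImplicit false

namespace Pool.Agent.Helper87.TC

open MvPolynomial Pool.Agent.Helper48.VMRT Pool.Agent.Helper87.VM

section sm2

/-! ### evaluation of homogeneous maps -/

theorem sm2_ev_smul {κ μ : Type} {m : ℕ} {E : μ → MvPolynomial κ ℂ} (hE : ∀ i, HomE m (E i))
    (a : ℂ) (y : κ → ℂ) : ev E (a • y) = a ^ m • ev E y :=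
  funext fun i => hE i a y

/-! ### continuity -/

theorem sm2_cont_hev (d : ℕ) (p : Polynomial ℂ) (t : ℂ) :
    Continuous fun s : ℂ => hev d p s t := by
  unfold hev
  fun_prop

theorem sm2_cont_pt {N d : ℕ} (c : Coef N d) (t : ℂ) (i : Fin (N + 1)) :
    Continuous fun s : ℂ => pt c s t i := by
  unfold pt
  fun_prop

theorem sm2_cont_eval {κ : Type} (P : MvPolynomial κ ℂ) {f : ℂ → κ → ℂ}
    (hf : ∀ i, Continuous fun s => f s i) : Continuous fun s => eval (f s) P := by
  have h : Continuous f := continuous_pi hf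
  exact P.continuous_eval.comp h

theorem sm2_ext {f g : ℂ → ℂ} (hf : Continuous f) (hg : Continuous g)
    (h : ∀ s, s ≠ 0 → f s = g s) (s : ℂ) : f s = g s := by
  have h1 : f = g := by
    refine Continuous.ext_on (dense_compl_singleton (0 : ℂ)) hf hg ?_
    intro s hs
    exact h s hs
  rw [h1]

/-! ### derivatives of curves -/

theorem sm2_has_dps {N d : ℕ} (c : Coef N d) (s t : ℂ) (i : Fin (N + 1)) :
    HasDerivAt (fun x => pt c x t i) (dps c s t i) s := by
  have h : DifferentiableAt ℂ (fun x => pt c x t i) s := by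
    simp only [pt]
    fun_prop
  exact h.hasDerivAt

theorem sm2_has_dpt {N d : ℕ} (c : Coef N d) (s t : ℂ) (i : Fin (N + 1)) :
    HasDerivAt (fun y => pt c s y i) (dpt c s t i) t := by
  have h : DifferentiableAt ℂ (fun y => pt c s y i) t := by
    simp only [pt]
    fun_prop
  exact h.hasDerivAt

theorem sm2_dps_one {N d : ℕ} (c : Coef N d) : dps c 1 0 = (d : ℂ) • pt c 1 0 := by
  funext i
  have h1 := sm2_has_dps c 1 0 i
  have h2 : (fun x : ℂ => pt c x 0 i) = fun x => x ^ d * pt c 1 0 i := by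
    funext x
    have h3 := congrFun (hevv_cpol c x 0) i
    have h4 := congrFun (hevv_cpol c 1 0) i
    have h5 := hev_smul_smul d (cpol c i) x 1 0
    rw [mul_one, mul_zero] at h5
    rw [← h3, ← h4]
    exact h5
  rw [h2] at h1
  have h3 := (hasDerivAt_pow d (1 : ℂ)).mul_const (pt c 1 0 i)
  rw [one_pow, mul_one] at h3
  exact h1.unique h3

/-! ### the tangent map -/

variable (D : VD) {N : ℕ} (E : Fin (N + 1) → MvPolynomial (Option (Fin D.w) × D.ν) ℂ)

theorem sm2_dTh2_smul (c₀ : ℂ) (u z : Fin D.w → ℂ) (r : ℂ) :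
    dTh2 D E c₀ u (r • z) = r • dTh2 D E c₀ u z := by
  have h0 : (ov 0 (r • z) : Option (Fin D.w) → ℂ) = r • ov 0 z := by
    rw [← ov_smul, mul_zero]
  unfold dTh2
  rw [h0, dev_smul, seg_smul_left, seg_smul_right, ← smul_add, dev_smul]

theorem sm2_deriv (c₀ : ℂ) {γ : ℂ → Option (Fin D.w) → ℂ} {γ' : Option (Fin D.w) → ℂ}
    {τ : ℂ} (h : ∀ o, HasDerivAt (fun s => γ s o) (γ' o) τ) (i : Fin (N + 1)) :
    HasDerivAt (fun s => ev E (c₀ • D.gr (γ s)) i)
      (dev E (c₀ • D.gr (γ τ)) (c₀ • (seg γ' (ev D.F (γ τ)) +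
        seg (γ τ) (dev D.F (γ τ) γ'))) i) τ := by
  refine hasDerivAt_eval (E i) (γ := fun s => c₀ • D.gr (γ s)) ?_
  rintro ⟨o, j⟩
  have h1 := ((h o).mul (hasDerivAt_eval (D.F j) h)).const_mul c₀
  exact h1

theorem sm2_zcone {D : VD} (hD : D.Good) (a : ℂ) {z : Fin D.w → ℂ} (hz : z ∈ D.Z) :
    a • z ∈ D.Z := by
  obtain ⟨i, hi⟩ := Set.mem_iUnion.1 hz
  exact Set.mem_iUnion.2 ⟨i, hD.Zcone i a z hi⟩

theorem sm2_zneg {D : VD} (hD : D.Good) {z : Fin D.w → ℂ} (hz : z ∈ D.Z) :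
    -z ∈ D.Z := by
  have h := sm2_zcone hD (-1) hz
  rwa [neg_one_smul] at h

theorem sm2_LP {D : VD} (hD : D.Good) (u z : Fin D.w → ℂ) (hz : z ∈ D.Z) (hz0 : z ≠ 0) :
    LP D (ov 1 u) (ov 0 z) := by
  refine ⟨?_, Or.inl one_ne_zero, ?_⟩
  · rw [LinearIndependent.pair_iff]
    intro s t h
    have h1 : s = 0 := by
      have := congrFun h none
      simpa using this
    refine ⟨h1, ?_⟩
    by_contra ht
    apply hz0
    funext i
    have := congrFun h (some i)
    simp only [Pi.add_apply, Pi.smul_apply, ov_some, h1, zero_smul, zero_add, smul_eq_mul,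
      Pi.zero_apply] at this
    exact (mul_eq_zero.1 this).resolve_left ht
  · have : (fun i => (ov 0 z : Option (Fin D.w) → ℂ) none * (ov 1 u : Option (Fin D.w) → ℂ)
        (some i) - (ov 1 u : Option (Fin D.w) → ℂ) none * (ov 0 z : Option (Fin D.w) → ℂ)
        (some i)) = -z := by
      funext i
      simp
    rw [this]
    exact sm2_zneg hD hz

theorem sm2_FX_smul {D : VD} {h : D.G} {y : Option (Fin D.w) × D.ν → ℂ} (a : ℂ)
    (hy : y ∈ FX D h) : a • y ∈ FX D h := by
  rcases hy with hy | hy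
  · left
    rw [map_smul, hy]
  · right
    rw [map_smul, hy, smul_neg]

theorem sm2_FX_zero {D : VD} {h : D.G} : (0 : Option (Fin D.w) × D.ν → ℂ) ∈ FX D h := by
  left
  rw [map_zero]

theorem sm2_zero_DX {D : VD} {M : ℕ} {g : D.G} {N : ℕ}
    {E : Fin (N + 1) → MvPolynomial (Option (Fin D.w) × D.ν) ℂ} {X DX : Set (Fin (N + 1) → ℂ)}
    {ε : ℂ} (hT : TR D M g N E X DX ε) : (0 : Fin (N + 1) → ℂ) ∈ DX := by
  have h1 := hT.res.on 0 sm2_FX_zero
  have h2 := hT.res.dcone 0 _ h1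
  rwa [zero_smul] at h2

end sm2

theorem st_SM2 (h1 : ST_MEM0) (h2 : ST_LINE) (h3 : ST_VTS2) : ST_SM2 := by
  intro D M g N E X DX ε hT u hG c₀ hc₀ z hz hz0 c hc
  have hD : D.Good := hT.td.good
  have hE := hT.res.hom
  have hF := hD.fd.hom
  have hKpos : (4 : ℕ) ^ (M + 1) ≠ 0 := by positivity
  have hu0 : u ≠ 0 := by
    rintro rfl
    have hm := hG.mov 1 one_pos (Nat.one_lt_two_pow (Nat.succ_ne_zero M))
    apply hm
    rw [map_zero, sub_zero]
    have h := sm2_zcone hD 0 hz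
    rwa [zero_smul] at h
  obtain ⟨y, η, hy1, hη1, hy2, hy3, hy4⟩ := h1 D hD (ov 1 u) (ov 0 z) (sm2_LP hD u z hz hz0)
  have hsy : ∀ s t : ℂ, s • hevv D.a y s t = D.gr (s • ov 1 u + t • ov 0 z) := by
    intro s t
    have h := hy4 s t
    rw [ov_none, ov_none, mul_one, mul_zero, add_zero] at h
    rw [hy2, ← seg_smul_right, h, VD.gr]
  have hnFX := h2 D M g hT.td u hG.tan z hz hz0 y hy1 hsy
  have hpt : ∀ s t : ℂ, pt c s t = ev E (c₀ • hevv D.a y s t) := by
    intro s t
    funext i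
    refine sm2_ext (f := fun s => pt c s t i) (g := fun s => ev E (c₀ • hevv D.a y s t) i)
      (sm2_cont_pt c t i) ?_ ?_ s
    · refine sm2_cont_eval (E i) (f := fun s => c₀ • hevv D.a y s t) fun o => ?_
      exact (sm2_cont_hev D.a (y o) t).const_mul c₀
    · intro s hs
      have h := congrFun (hc s t) i
      rw [← hsy, smul_comm, sm2_ev_smul hE, Pi.smul_apply, Pi.smul_apply, smul_eq_mul,
        smul_eq_mul] at h
      exact mul_left_cancel₀ (pow_ne_zero _ hs) h
  have hy10 : hevv D.a y 1 0 = D.gr (ov 1 u) := by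
    have h := hsy 1 0
    rwa [one_smul, one_smul, zero_smul, add_zero] at h
  have hpt10 : pt c 1 0 = ev E (c₀ • D.gr (ov 1 u)) := by
    rw [hpt, hy10]
  have hYcone : ∀ (a : ℂ) (y' : Option (Fin D.w) × D.ν → ℂ), y' ∈ D.Y → a • y' ∈ D.Y :=
    fun a y' hy' => hD.Ypm.cone a y' hy'
  have hnF : ∀ s t : ℂ, (s, t) ≠ (0, 0) → c₀ • hevv D.a y s t ∉ FX D (g ^ (2 ^ M)) := by
    intro s t hst h
    apply hnFX s t hst
    have h' := sm2_FX_smul c₀⁻¹ h
    rwa [smul_smul, inv_mul_cancel₀ hc₀, one_smul] at h'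
  have h10 : ((1 : ℂ), (0 : ℂ)) ≠ (0, 0) := by simp
  -- the point is not zero
  have hv0 : ev E (c₀ • D.gr (ov 1 u)) ≠ 0 := by
    intro h
    have h' := hT.res.off (c₀ • hevv D.a y 1 0) (hYcone _ _ (hy3 1 0)) (hnF 1 0 h10)
    apply h'
    rw [hy10, h]
    exact sm2_zero_DX hT
  -- derivatives
  have hdps : dps c 1 0 = ((4 ^ (M + 1) * D.a : ℕ) : ℂ) • ev E (c₀ • D.gr (ov 1 u)) := by
    rw [sm2_dps_one, hpt10]
  have hdpt : dpt c 1 0 = dTh2 D E c₀ u (c₀ • z) := by
    funext i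
    have e1 := sm2_has_dpt c 1 0 i
    have e2 : (fun y' : ℂ => pt c 1 y' i) =
        fun y' => ev E (c₀ • D.gr (ov 1 u + y' • ov 0 z)) i := by
      funext y'
      have h := congrFun (hc 1 y') i
      rw [one_pow, one_smul, one_smul] at h
      exact h
    rw [e2] at e1
    have e3 := sm2_deriv D E c₀ (γ := fun y' => ov 1 u + y' • ov 0 z) (γ' := ov 0 z) (τ := 0)
      (fun o => hasDerivAt_line (ov 1 u) (ov 0 z) 0 o) i
    have e4 := e1.unique e3
    simp only [zero_smul, add_zero] at e4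
    rw [e4, sm2_dTh2_smul, dev_smul]
    rfl
  have hda : ((4 ^ (M + 1) * D.a : ℕ) : ℂ) ≠ 0 := by
    rw [Nat.cast_ne_zero]
    have := hD.fd.two_le
    exact Nat.mul_ne_zero hKpos (by omega)
  refine ⟨⟨h10, ?_, ?_⟩, ⟨c₀, hc₀, hdpt⟩, ⟨_, hdps⟩⟩
  · -- immersive
    obtain ⟨f, hf1, hf2, hf3, -⟩ := h3 D M g N E X DX ε hT u c₀ hc₀ hu0
    rw [LinearIndependent.pair_iff]
    intro s t hst
    rw [hdps, hdpt, ← hf2] at hst
    have e1 : t • f (c₀ • z) ∈ LinearMap.range f ⊓
        Submodule.span ℂ {ev E (c₀ • D.gr (ov 1 u))} := by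
      refine ⟨⟨t • (c₀ • z), map_smul _ _ _⟩, ?_⟩
      rw [SetLike.mem_coe, Submodule.mem_span_singleton]
      refine ⟨-(s * ((4 ^ (M + 1) * D.a : ℕ) : ℂ)), ?_⟩
      rw [smul_smul] at hst
      rw [neg_smul]
      exact neg_eq_of_add_eq_zero_right hst
    rw [hf3, Submodule.mem_bot] at e1
    have e2 : t = 0 := by
      rw [← map_smul] at e1
      have e3 : t • c₀ • z = 0 := hf1 (by rw [e1, map_zero])
      rcases smul_eq_zero.1 e3 with h | h
      · exact h
      · rcases smul_eq_zero.1 h with h | h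
        · exact absurd h hc₀
        · exact absurd h hz0
    refine ⟨?_, e2⟩
    rw [e1, add_zero, smul_smul] at hst
    rcases smul_eq_zero.1 hst with h | h
    · exact (mul_eq_zero.1 h).resolve_right hda
    · exact absurd h hv0
  · -- unique
    rintro s' t' hst' ⟨b, hb⟩
    rw [hpt s' t', hpt 1 0] at hb
    obtain ⟨i, c', hi⟩ := hT.res.sep (c₀ • hevv D.a y 1 0) (hYcone _ _ (hy3 1 0)) (hnF 1 0 h10)
      (c₀ • hevv D.a y s' t') (hYcone _ _ (hy3 s' t')) (hnF s' t' hst') b hb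
    obtain ⟨H1, -, -⟩ := st_HTR D hD (g ^ i)
    rw [← map_pow, hy10, map_smul, ← H1, oext_ov] at hi
    have hi2 : hevv D.a y s' t' = c' • D.gr (ov 1 (D.ρ (g ^ i) u)) := by
      have h := congrArg (fun x => c₀⁻¹ • x) hi
      simp only [smul_smul] at h
      rw [inv_mul_cancel₀ hc₀, one_smul] at h
      rw [h]
      congr 1
      field_simp
    have hne : hevv D.a y s' t' ≠ 0 := hy1.ne s' t' hst'
    have e1 : seg (s' • ov 1 u + t' • ov 0 z : Option (Fin D.w) → ℂ) (hevv (D.a - 1) η s' t') =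
        seg (ov 1 (D.ρ (g ^ i) u)) (c' • ev D.F (ov 1 (D.ρ (g ^ i) u))) := by
      rw [← hy2, hi2, seg_smul_right, VD.gr]
    obtain ⟨e, he, e2, -⟩ := seg_eq_seg e1 (by rw [← hy2]; exact hne)
    have e3 : (1 : ℂ) = e * s' := by
      have h := congrFun e2 none
      simpa using h
    have hs' : s' ≠ 0 := by
      rintro rfl
      rw [mul_zero] at e3
      exact one_ne_zero e3
    have e4 : D.ρ (g ^ i) u = u + (e * t') • z := by
      funext j
      have h := congrFun e2 (some j)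
      simp only [ov_some, Pi.smul_apply, Pi.add_apply, smul_eq_mul] at h
      rw [h, Pi.add_apply, Pi.smul_apply, smul_eq_mul]
      linear_combination (-(u j)) * e3
    rw [one_mul, zero_mul]
    by_contra ht'
    have e5 : g ^ i = g ^ (i % 2 ^ (M + 1)) := by
      conv_lhs => rw [← Nat.mod_add_div i (2 ^ (M + 1))]
      rw [pow_add, pow_mul, hT.td.ord, one_pow, mul_one]
    rcases Nat.eq_zero_or_pos (i % 2 ^ (M + 1)) with h0 | h0
    · rw [e5, h0, pow_zero, map_one, Module.End.one_apply] at e4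
      have e6 : (e * t') • z = 0 := by
        have h : u + 0 = u + (e * t') • z := by rw [add_zero]; exact e4
        exact (add_left_cancel h).symm
      rcases smul_eq_zero.1 e6 with h | h
      · exact (mul_ne_zero he ht') h
      · exact hz0 h
    · apply hG.mov _ h0 (Nat.mod_lt _ (by positivity))
      rw [← e5, e4, add_sub_cancel_left]
      exact sm2_zcone hD _ hz

end Pool.Agent.Helper87.TC
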