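import Pool.Agent.Helper87.TC.Lib

/-!
# One step: the resolved quotient by the involution induced by a power
-/

set_option autoImplicit false

namespace Pool.Agent.Helper87.TC

open MvPolynomial Pool.Agent.Helper48.VMRT Pool.Agent.Helper87.VM

section step

variable {κα κβ : Type}

lemma step_root (a : ℂ) : ∃ c : ℂ, c ^ 4 = a :=
  IsAlgClosed.exists_pow_nat_eq a (by norm_num)

lemma step_cone {S : Set (κα ⊕ κβ → ℂ)} (hc : ∀ a : ℂ, ∀ y ∈ S, a • y ∈ S) :
    ∀ a : ℂ, ∀ x ∈ ev Psi '' S, a • x ∈ ev Psi '' S := by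
  rintro a x ⟨y, hy, rfl⟩
  obtain ⟨c, hc4⟩ := step_root a
  exact ⟨c • y, hc c y hy, by rw [ev_Psi_smul, hc4]⟩

lemma step_Bd_closed : ZClosed (Bd κα κβ) := by
  have h : Bd κα κβ = {w : KK κα κβ → ℂ | ∀ a, w (Sum.inl a) = 0} ∪
      {w : KK κα κβ → ℂ | ∀ b, w (Sum.inr b) = 0} := by
    ext w
    exact Iff.rfl
  rw [h]
  refine zclosed_union ?_ ?_
  · apply zclosed_of_eqs (Set.range (fun a : (Fin 3 → κα) × κβ => X (Sum.inl a)))
    intro w
    constructor
    · rintro hw p ⟨a, rfl⟩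
      rw [eval_X]
      exact hw a
    · intro hw a
      have := hw _ ⟨a, rfl⟩
      rw [eval_X] at this
      exact this
  · apply zclosed_of_eqs (Set.range (fun a : κα × (Fin 3 → κβ) => X (Sum.inr a)))
    intro w
    constructor
    · rintro hw p ⟨a, rfl⟩
      rw [eval_X]
      exact hw a
    · intro hw a
      have := hw _ ⟨a, rfl⟩
      rw [eval_X] at this
      exact this

lemma step_Bd_cone (a : ℂ) (w : KK κα κβ → ℂ) (hw : w ∈ Bd κα κβ) : a • w ∈ Bd κα κβ := by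
  rcases hw with h | h
  · left
    intro b
    rw [Pi.smul_apply, h b, smul_zero]
  · right
    intro b
    rw [Pi.smul_apply, h b, smul_zero]

lemma step_not_Bd {y : κα ⊕ κβ → ℂ} (hp : pl y ≠ 0) (hq : qr y ≠ 0) :
    ev Psi y ∉ Bd κα κβ := by
  obtain ⟨i, hi⟩ := Function.ne_iff.1 hp
  obtain ⟨l, hl⟩ := Function.ne_iff.1 hq
  rw [ev_Psi]
  rintro (h | h)
  · have h1 := h (fun _ => i, l)
    simp only [Theta, Sum.elim_inl] at h1
    have hi' : pl y i ≠ 0 := hi
    have hl' : qr y l ≠ 0 := hl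
    exact absurd h1 (by
      refine mul_ne_zero (mul_ne_zero one_ne_zero ?_) hl'
      exact mul_ne_zero (mul_ne_zero hi' hi') hi')
  · have h1 := h (i, fun _ => l)
    simp only [Theta, Sum.elim_inr] at h1
    have hi' : pl y i ≠ 0 := hi
    have hl' : qr y l ≠ 0 := hl
    exact absurd h1 (by
      refine mul_ne_zero (mul_ne_zero one_ne_zero hi') ?_
      exact mul_ne_zero (mul_ne_zero hl' hl') hl')

lemma step_homE (i : KK κα κβ) : HomE 4 (Psi i : MvPolynomial (κα ⊕ κβ) ℂ) := by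
  intro a x
  have h := congrFun (ev_Psi_smul a x) i
  exact h

end step

theorem st_STEP (hADAPT : ST_ADAPT) (hTRANS : ST_TRANS) (hSEPP : ST_SEPP) (hPTS : ST_PTS)
    (hTANI : ST_TANI) (hPSIPM : ST_PSIPM) (hCLIFT : ST_CLIFT) (hEQUI : ST_EQUI) : ST_STEP := by
  intro κ _ n K Y D γ ε hK hI
  obtain ⟨κα, κβ, _, _, φ, γα, γβ, δ, hδ, hδε, hφγ, hα, hβ, hγK⟩ :=
    hADAPT κ γ K ε hI.ne hI.pow
  obtain ⟨γ', hγ1, hγ2, hγ3, hγ4⟩ := hEQUI κα κβ γα γβ K δ hα hβ
  -- stability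
  have hYi : ∀ (i : ℕ), ∀ y ∈ Y, (γ ^ i) y ∈ Y := by
    intro i
    induction i with
    | zero => intro y hy; rw [pow_zero]; exact hy
    | succ i ih =>
      intro y hy
      rw [pow_succ']
      exact hI.act _ (ih y hy)
  have hDi : ∀ (i : ℕ), ∀ y ∈ D, (γ ^ i) y ∈ D := by
    intro i
    induction i with
    | zero => intro y hy; rw [pow_zero]; exact hy
    | succ i ih =>
      intro y hy
      rw [pow_succ']
      exact hI.dact _ (ih y hy)
  have hD1 : ∀ y, γ y ∈ D → y ∈ D := by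
    intro y hy
    have h1 := hDi (2 * K - 1) _ hy
    have h2 : (γ ^ (2 * K - 1)) (γ y) = ε • y := by
      rw [← hI.pow y]
      have h3 : 2 * K = (2 * K - 1) + 1 := by omega
      conv_rhs => rw [h3, pow_succ]
      rfl
    rw [h2] at h1
    have h4 := hI.dcone ε⁻¹ _ h1
    rw [smul_smul, inv_mul_cancel₀ hI.ne, one_smul] at h4
    exact h4
  have hDi' : ∀ (i : ℕ) (y : κ → ℂ), (γ ^ i) y ∈ D → y ∈ D := by
    intro i
    induction i with
    | zero => intro y hy; rw [pow_zero] at hy; exact hy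
    | succ i ih =>
      intro y hy
      rw [pow_succ'] at hy
      exact ih y (hD1 _ hy)
  -- adapted cones
  have hAd : ∀ S : Set (κ → ℂ), ZClosed S → (∀ a : ℂ, ∀ y ∈ S, a • y ∈ S) →
      (∀ y ∈ S, γ y ∈ S) → AdCone (φ ⁻¹' S) := by
    intro S h1 h2 h3
    have h3' : ∀ (i : ℕ), ∀ y ∈ S, (γ ^ i) y ∈ S := by
      intro i
      induction i with
      | zero => intro y hy; rw [pow_zero]; exact hy
      | succ i ih =>
        intro y hy
        rw [pow_succ']
        exact h3 _ (ih y hy)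
    refine ⟨(hTRANS (κα ⊕ κβ) κ φ S).1 h1, ?_, ?_⟩
    · intro a y hy
      show φ (a • y) ∈ S
      rw [map_smul]
      exact h2 a _ hy
    · intro y hy
      show φ (sg y) ∈ S
      have h4 := h2 δ⁻¹ _ (h3' K _ hy)
      rw [hγK, smul_smul, inv_mul_cancel₀ hδ, one_smul] at h4
      exact h4
  have hAY := hAd Y hI.pm.closed hI.pm.cone hI.act
  have hAD := hAd D hI.dcl hI.dcone hI.dact
  have hpq : ∀ y ∈ Y, y ∉ D → pl (φ.symm y) ≠ 0 ∧ qr (φ.symm y) ≠ 0 := by
    intro y hy hyD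
    have h1 := hI.free y hy hyD K (by omega) (by omega)
    have h2 := hγK (φ.symm y)
    rw [LinearEquiv.apply_symm_apply] at h2
    constructor
    · intro hp
      apply h1 (-δ)
      have h3 : sg (φ.symm y) = -(φ.symm y) := by
        conv_rhs => rw [← elim_pl_qr (φ.symm y)]
        unfold sg
        rw [hp]
        funext i
        cases i with
        | inl i => simp
        | inr i => simp
      rw [h2, h3, map_neg, LinearEquiv.apply_symm_apply, smul_neg, neg_smul]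
    · intro hq
      apply h1 δ
      have h3 : sg (φ.symm y) = φ.symm y := by
        conv_rhs => rw [← elim_pl_qr (φ.symm y)]
        unfold sg
        rw [hq, neg_zero]
      rw [h2, h3, LinearEquiv.apply_symm_apply]
  -- the polynomial map
  let P : KK κα κβ → MvPolynomial κ ℂ := fun i =>
    pull (φ.symm : (κ → ℂ) →ₗ[ℂ] (κα ⊕ κβ → ℂ)) (Psi i)
  have hevP : ∀ y, ev P y = ev Psi (φ.symm y) := by
    intro y
    funext i
    exact eval_pull _ _ _
  have hdevP : ∀ y v, dev P y v = dev Psi (φ.symm y) (φ.symm v) := by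
    intro y v
    funext i
    exact dpol_pull _ _ _ _
  have hequi : ∀ y, ev P (γ y) = γ' (ev P y) := by
    intro y
    rw [hevP, hevP]
    have h1 := hφγ (φ.symm y)
    rw [LinearEquiv.apply_symm_apply] at h1
    rw [h1, LinearEquiv.symm_apply_apply]
    conv_rhs => rw [← elim_pl_qr (φ.symm y)]
    rw [hγ1]
  have hequi' : ∀ (i : ℕ) (y : κ → ℂ), ev P ((γ ^ i) y) = (γ' ^ i) (ev P y) := by
    intro i
    induction i with
    | zero => intro y; rw [pow_zero, pow_zero]; rfl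
    | succ i ih =>
      intro y
      rw [pow_succ', pow_succ']
      show ev P (γ ((γ ^ i) y)) = γ' ((γ' ^ i) (ev P y))
      rw [hequi, ih]
  -- stability of the closures of images
  have hstab : ∀ S : Set (κ → ℂ), (∀ y ∈ S, γ y ∈ S) →
      ∀ w ∈ Cl (ev Psi '' (φ ⁻¹' S)), γ' w ∈ Cl (ev Psi '' (φ ⁻¹' S)) := by
    intro S hS w hw
    refine Cl_map_linear γ' ?_ hw
    rintro x ⟨y, hy, rfl⟩
    refine ⟨φ.symm (γ (φ y)), ?_, ?_⟩
    · show φ (φ.symm (γ (φ y))) ∈ S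
      rw [LinearEquiv.apply_symm_apply]
      exact hS _ hy
    · have h1 := hequi (φ y)
      rw [hevP, hevP, LinearEquiv.symm_apply_apply] at h1
      exact h1
  have himg : ∀ S : Set (κ → ℂ), ∀ y ∈ S, ev P y ∈ Cl (ev Psi '' (φ ⁻¹' S)) := by
    intro S y hy
    apply subset_Cl
    refine ⟨φ.symm y, ?_, (hevP y).symm⟩
    show φ (φ.symm y) ∈ S
    rw [LinearEquiv.apply_symm_apply]
    exact hy
  have hmem : ∀ S : Set (κ → ℂ), AdCone (φ ⁻¹' S) → ∀ y ∈ Y, y ∉ D →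
      ev P y ∈ Cl (ev Psi '' (φ ⁻¹' S)) → y ∈ S := by
    intro S hS y hy hyD h1
    obtain ⟨h2, h3⟩ := hpq y hy hyD
    rw [hevP] at h1
    have h4 := (hPTS κα κβ (φ ⁻¹' S) hS).2 (φ.symm y) h2 h3 h1
    have h5 : φ (φ.symm y) ∈ S := h4
    rw [LinearEquiv.apply_symm_apply] at h5
    exact h5
  have hoff : ∀ y ∈ Y, y ∉ D → ev P y ∉ Cl (ev Psi '' (φ ⁻¹' D)) ∪ Bd κα κβ := by
    intro y hy hyD h1
    rcases h1 with h1 | h1
    · exact hyD (hmem D hAD y hy hyD h1)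
    · obtain ⟨h2, h3⟩ := hpq y hy hyD
      rw [hevP] at h1
      exact step_not_Bd h2 h3 h1
  have hsurj : ∀ x ∈ Cl (ev Psi '' (φ ⁻¹' Y)), x ∉ Cl (ev Psi '' (φ ⁻¹' D)) ∪ Bd κα κβ →
      ∃ y ∈ Y, y ∉ D ∧ x = ev P y := by
    intro x hx hxD
    obtain ⟨y1, hy1, _, _, rfl⟩ := (hPTS κα κβ (φ ⁻¹' Y) hAY).1 x hx
      (fun h => hxD (Or.inr h))
    refine ⟨φ y1, hy1, fun h => hxD (Or.inl (subset_Cl _ ⟨y1, h, rfl⟩)), ?_⟩
    rw [hevP, LinearEquiv.symm_apply_apply]
  have hsep : ∀ y ∈ Y, y ∉ D → ∀ y' ∈ Y, y' ∉ D → ∀ a : ℂ, ev P y' = a • ev P y →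
      ∃ c : ℂ, y' = c • y ∨ y' = c • (γ ^ K) y := by
    intro y hy hyD y' hy' hyD' a h1
    obtain ⟨h2, h3⟩ := hpq y hy hyD
    obtain ⟨h2', h3'⟩ := hpq y' hy' hyD'
    rw [hevP, hevP] at h1
    obtain ⟨c, hc⟩ := (hSEPP κα κβ (φ.symm y) h2 h3).2.1 (φ.symm y') a h2' h3' h1
    rcases hc with hc | hc
    · refine ⟨c, Or.inl ?_⟩
      have := congrArg φ hc
      rw [LinearEquiv.apply_symm_apply, map_smul, LinearEquiv.apply_symm_apply] at this
      exact this
    · refine ⟨c * δ⁻¹, Or.inr ?_⟩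
      have h4 := congrArg φ hc
      rw [LinearEquiv.apply_symm_apply, map_smul] at h4
      have h5 := hγK (φ.symm y)
      rw [LinearEquiv.apply_symm_apply] at h5
      rw [h4, h5, smul_smul, mul_assoc, inv_mul_cancel₀ hδ, mul_one]
  have hpm : PM n (Cl (ev Psi '' (φ ⁻¹' Y))) := by
    refine hPSIPM κα κβ n (φ ⁻¹' Y) ((hTRANS (κα ⊕ κβ) κ φ Y).2.1 n hI.pm) hAY ?_
    obtain ⟨y, hy, hyD⟩ := hI.exi
    refine ⟨φ.symm y, ?_, hpq y hy hyD⟩
    show φ (φ.symm y) ∈ Y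
    rw [LinearEquiv.apply_symm_apply]
    exact hy
  have hdcl : ZClosed (Cl (ev Psi '' (φ ⁻¹' D)) ∪ Bd κα κβ) :=
    zclosed_union (zclosed_Cl _) step_Bd_closed
  have hdcone : ∀ a : ℂ, ∀ x ∈ Cl (ev Psi '' (φ ⁻¹' D)) ∪ Bd κα κβ,
      a • x ∈ Cl (ev Psi '' (φ ⁻¹' D)) ∪ Bd κα κβ := by
    intro a x hx
    rcases hx with hx | hx
    · exact Or.inl (Cl_cone (step_cone hAD.cone) a x hx)
    · exact Or.inr (step_Bd_cone a x hx)
  refine ⟨KK κα κβ, inferInstance, P, Cl (ev Psi '' (φ ⁻¹' Y)),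
    Cl (ev Psi '' (φ ⁻¹' D)) ∪ Bd κα κβ, γ', -δ ^ 4, ?_, ?_⟩
  · refine ⟨fun i => homE_pull _ (step_homE i), hpm, fun y hy => himg Y y hy, hdcl, hdcone,
      fun y hy => Or.inl (himg D y hy), hoff, hsurj, ?_, hequi, ?_, ?_, ?_, ?_⟩
    · intro y hy hyD y' hy' hyD' a h1
      obtain ⟨c, hc | hc⟩ := hsep y hy hyD y' hy' hyD' a h1
      · exact ⟨0, c, by rw [pow_zero]; exact hc⟩
      · exact ⟨K, c, hc⟩
    · intro y hy hyD v hv
      obtain ⟨h2, h3⟩ := hpq y hy hyD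
      rw [hdevP] at hv
      have h4 := (hSEPP κα κβ (φ.symm y) h2 h3).2.2 _ hv
      have h5 := congrArg φ h4
      rw [LinearEquiv.apply_symm_apply, map_zero] at h5
      exact h5
    · intro y hy hyD v hv
      obtain ⟨h2, h3⟩ := hpq y hy hyD
      rw [hevP] at hv
      have hy1 : φ.symm y ∈ φ ⁻¹' Y := by
        show φ (φ.symm y) ∈ Y
        rw [LinearEquiv.apply_symm_apply]
        exact hy
      obtain ⟨u, hu, rfl⟩ := (hTANI κα κβ (φ ⁻¹' Y) hAY (φ.symm y) hy1 h2 h3 v).1 hv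
      refine ⟨φ u, ?_, ?_⟩
      · have h4 := ((hTRANS (κα ⊕ κβ) κ φ Y).2.2.1 (φ.symm y) u).1 hu
        rw [LinearEquiv.apply_symm_apply] at h4
        exact h4
      · rw [hdevP, LinearEquiv.symm_apply_apply]
    · intro e c hc hcY hcD
      obtain ⟨e', y, he, hy, hyY, hyc⟩ := hCLIFT κα κβ (φ ⁻¹' Y) hAY e c hc hcY
        (fun s t hst h => hcD s t hst (Or.inr h))
      obtain ⟨c', hc', hcφ⟩ := (hTRANS (κα ⊕ κβ) κ φ Y).2.2.2 e' y hy
      refine ⟨e', c', he, hc', ?_, ?_, ?_⟩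
      · intro s t
        rw [hcφ]
        exact hyY s t
      · intro s t hst h
        rw [hcφ] at h
        apply hcD s t hst
        left
        rw [hyc]
        exact subset_Cl _ ⟨_, h, rfl⟩
      · intro s t
        rw [hyc, hcφ, hevP, LinearEquiv.symm_apply_apply]
    · intro S h1 h2 h3 h4
      have hAS := hAd S h1 h2 h4
      refine ⟨Cl (ev Psi '' (φ ⁻¹' S)), zclosed_Cl _, Cl_cone (step_cone hAS.cone),
        Cl_mono (Set.image_mono (Set.preimage_mono h3)), hstab S h4, ?_⟩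
      intro y hy hyD
      exact ⟨hmem S hAS y hy hyD, himg S y⟩
  · refine ⟨hpm, ?_, hγ4, hstab Y hI.act, hdcl, hdcone, ?_, ?_, ?_⟩
    · exact neg_ne_zero.2 (pow_ne_zero 4 hδ)
    · intro w hw
      rcases hw with hw | hw
      · exact Or.inl (hstab D hI.dact w hw)
      · right
        rcases hw with hw | hw
        · exact Or.inl (hγ2 w hw)
        · exact Or.inr (hγ3 w hw)
    · intro x hx hxD i hi0 hiK c hcon
      obtain ⟨y, hy, hyD, rfl⟩ := hsurj x hx hxD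
      rw [← hequi'] at hcon
      have hy1 : (γ ^ i) y ∈ Y := hYi i y hy
      have hy1D : (γ ^ i) y ∉ D := fun h => hyD (hDi' i y h)
      obtain ⟨c', hc' | hc'⟩ := hsep y hy hyD _ hy1 hy1D c hcon
      · exact hI.free y hy hyD i hi0 (by omega) c' hc'
      · have hc0 : c' ≠ 0 := by
          rintro rfl
          rw [zero_smul] at hc'
          obtain ⟨h2, _⟩ := hpq _ hy1 hy1D
          apply h2
          rw [hc', map_zero]
          rfl
        apply hI.free _ hy1 hy1D (K - i) (by omega) (by omega) c'⁻¹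
        have h3 : (γ ^ (K - i)) ((γ ^ i) y) = (γ ^ K) y := by
          have h4 : K = (K - i) + i := by omega
          conv_rhs => rw [h4, pow_add]
          rfl
        rw [h3]
        conv_rhs => rw [hc']
        rw [smul_smul, inv_mul_cancel₀ hc0, one_smul]
    · obtain ⟨y, hy, hyD⟩ := hI.exi
      exact ⟨ev P y, himg Y y hy, hoff y hy hyD⟩

end Pool.Agent.Helper87.TC
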